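import Pool.Agent.N682.MS.Stm
import Pool.Agent.N169.NS.TT

/-!
# Project MS: from the matrix rings to `E_3` and finite groups
-/

set_option autoImplicit false

namespace Pool.Agent.N690.MS

open Pool.Agent.N44.NS
open Pool.Agent.N169.NS
open Pool.Agent.W661.RC (HasT)
open Pool.Agent.N682.MS (AA Dta S_DTA S_LEV)

section hom

variable {A B : Type} [Ring A] [Ring B]

/-- the homomorphism of the groups of matrices -/
def um (g : A →+* B) : (Matrix (Fin 3) (Fin 3) A)ˣ →* (Matrix (Fin 3) (Fin 3) B)ˣ :=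
  Units.map (g.mapMatrix (m := Fin 3)).toMonoidHom

lemma um_val (g : A →+* B) (x : (Matrix (Fin 3) (Fin 3) A)ˣ) :
    (um g x).val = x.val.map g := rfl

lemma um_el (g : A →+* B) {i j : Fin 3} (h : i ≠ j) (a : A) :
    um g (el i j h a) = el i j h (g a) := by
  apply Units.ext
  rw [um_val]
  change (1 + Matrix.single i j a).map g = 1 + Matrix.single i j (g a)
  ext r s
  rw [Matrix.map_apply, Matrix.add_apply, Matrix.add_apply, map_add]
  congr 1
  · rw [Matrix.one_apply, Matrix.one_apply]
    split_ifs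
    · exact map_one g
    · exact map_zero g
  · rw [Matrix.single_apply, Matrix.single_apply]
    split_ifs
    · rfl
    · exact map_zero g

lemma um_mem (g : A →+* B) {x : (Matrix (Fin 3) (Fin 3) A)ˣ} (hx : x ∈ E3 A) :
    um g x ∈ E3 B := by
  have h : E3 A ≤ (E3 B).comap (um g) := by
    rw [E3, Subgroup.closure_le]
    rintro _ ⟨i, j, h, a, rfl⟩
    rw [SetLike.mem_coe, Subgroup.mem_comap, um_el]
    exact Subgroup.subset_closure ⟨i, j, h, g a, rfl⟩
  exact h hx

/-- the homomorphism of the elementary groups -/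
def um3 (g : A →+* B) : E3 A →* E3 B :=
  ((um g).comp (E3 A).subtype).codRestrict (E3 B) fun x => um_mem g x.2

/-- the homomorphism from the elementary group -/
def uq (g : A →+* B) : E3 A →* (Matrix (Fin 3) (Fin 3) B)ˣ := (um g).comp (E3 A).subtype

lemma uq_eE (g : A →+* B) {i j : Fin 3} (h : i ≠ j) (a : A) :
    uq g (eE i j h a) = el i j h (g a) := um_el g h a

lemma uq_um3 {D : Type} [Ring D] (g : B →+* D) (g' : A →+* B) (x : E3 A) :
    uq g (um3 g' x) = uq (g.comp g') x := by
  apply Units.ext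
  change ((x.1.val.map g').map g) = x.1.val.map (g.comp g')
  rw [Matrix.map_map]
  rfl

end hom

section ring

variable {B : Type} [Ring B]

/-- the commutator of two opposite elementary matrices -/
lemma comm_el {i j : Fin 3} (h : i ≠ j) (P Q : B) (hQP : Q * P = 0) :
    (el i j h P * el j i h.symm Q * el i j h (-P) * el j i h.symm (-Q)).val =
      1 + Matrix.single i i (P * Q) := by
  have hne : i ≠ j := h
  change (1 + Matrix.single i j P) * (1 + Matrix.single j i Q) * (1 + Matrix.single i j (-P)) *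
    (1 + Matrix.single j i (-Q)) = 1 + Matrix.single i i (P * Q)
  have e1 : (Matrix.single i j P * Matrix.single j i Q : Matrix (Fin 3) (Fin 3) B) =
      Matrix.single i i (P * Q) := Matrix.single_mul_single_same ..
  have e2 : (1 + Matrix.single i j P) * (1 + Matrix.single j i Q) =
      (1 + Matrix.single i i (P * Q) + Matrix.single i j P + Matrix.single j i Q :
        Matrix (Fin 3) (Fin 3) B) := by
    rw [mul_add, add_mul, add_mul, e1]
    simp only [one_mul, mul_one]
    abel
  have e3 : (1 + Matrix.single i j (-P)) * (1 + Matrix.single j i (-Q)) =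
      (1 + Matrix.single i i (P * Q) - Matrix.single i j P - Matrix.single j i Q :
        Matrix (Fin 3) (Fin 3) B) := by
    have e1' : (Matrix.single i j (-P) * Matrix.single j i (-Q) : Matrix (Fin 3) (Fin 3) B) =
        Matrix.single i i (P * Q) := by
      rw [Matrix.single_mul_single_same, neg_mul_neg]
    have e4 : (Matrix.single i j (-P) : Matrix (Fin 3) (Fin 3) B) = - Matrix.single i j P := by
      rw [← Matrix.single_neg]
    have e5 : (Matrix.single j i (-Q) : Matrix (Fin 3) (Fin 3) B) = - Matrix.single j i Q := by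
      rw [← Matrix.single_neg]
    rw [mul_add, add_mul, add_mul, e1', e4, e5]
    simp only [one_mul, mul_one]
    abel
  rw [mul_assoc, e2, e3]
  -- products of the singles
  have s1 : (Matrix.single i i (P * Q) * Matrix.single i i (P * Q) : Matrix (Fin 3) (Fin 3) B) =
      0 := by
    rw [Matrix.single_mul_single_same]
    have : P * Q * (P * Q) = 0 := by
      rw [mul_assoc, ← mul_assoc Q P Q, hQP, zero_mul, mul_zero]
    rw [this, Matrix.single_zero]
  have s2 : (Matrix.single i i (P * Q) * Matrix.single i j P : Matrix (Fin 3) (Fin 3) B) = 0 := by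
    rw [Matrix.single_mul_single_same, mul_assoc, hQP, mul_zero, Matrix.single_zero]
  have s3 : (Matrix.single i i (P * Q) * Matrix.single j i Q : Matrix (Fin 3) (Fin 3) B) = 0 :=
    Matrix.single_mul_single_of_ne _ _ _ _ hne _
  have s4 : (Matrix.single i j P * Matrix.single i i (P * Q) : Matrix (Fin 3) (Fin 3) B) = 0 :=
    Matrix.single_mul_single_of_ne _ _ _ _ hne.symm _
  have s5 : (Matrix.single i j P * Matrix.single i j P : Matrix (Fin 3) (Fin 3) B) = 0 :=
    Matrix.single_mul_single_of_ne _ _ _ _ hne.symm _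
  have s6 : (Matrix.single j i Q * Matrix.single i i (P * Q) : Matrix (Fin 3) (Fin 3) B) = 0 := by
    rw [Matrix.single_mul_single_same, ← mul_assoc, hQP, zero_mul, Matrix.single_zero]
  have s7 : (Matrix.single j i Q * Matrix.single i j P : Matrix (Fin 3) (Fin 3) B) = 0 := by
    rw [Matrix.single_mul_single_same, hQP, Matrix.single_zero]
  have s8 : (Matrix.single j i Q * Matrix.single j i Q : Matrix (Fin 3) (Fin 3) B) = 0 :=
    Matrix.single_mul_single_of_ne _ _ _ _ hne _
  simp only [add_mul, mul_add, mul_sub, one_mul, mul_one, s1, s2, s3, s4, s5, s6, s7, s8, e1]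
  abel

variable (E F : B)

/-- the relations -/
structure Rl (E F : B) : Prop where
  ee : E * E = 0
  ff : F * F = 0
  ef : E * F + F * E = 1

variable {E F}

lemma Rl.efe (h : Rl E F) : E * F * E = E := by
  have h1 : E * (E * F + F * E) = E := by rw [h.ef, mul_one]
  rw [mul_add, ← mul_assoc, h.ee, zero_mul, zero_add, ← mul_assoc] at h1
  exact h1

lemma Rl.efqp (h : Rl E F) : E * (E * F) = 0 := by rw [← mul_assoc, h.ee, zero_mul]

/-- the square of `z` -/
lemma Rl.zz (h : Rl E F) : (F * E - E * F - E * F * E) * (F * E - E * F - E * F * E) = 1 := by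
  rw [h.efe]
  have a1 : F * E * (F * E) = F * E := by
    rw [mul_assoc, ← mul_assoc E F E, h.efe]
  have a2 : F * E * (E * F) = 0 := by
    rw [mul_assoc, h.efqp, mul_zero]
  have a3 : F * E * E = 0 := by rw [mul_assoc, h.ee, mul_zero]
  have a4 : E * F * (F * E) = 0 := by
    rw [mul_assoc, ← mul_assoc F F E, h.ff, zero_mul, mul_zero]
  have a5 : E * F * (E * F) = E * F := by rw [← mul_assoc, h.efe]
  have a6 : E * (F * E) = E := by rw [← mul_assoc, h.efe]
  simp only [sub_mul, mul_sub, a1, a2, a3, a4, a5, a6, h.efe, h.efqp, h.ee]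
  rw [← h.ef]
  abel

/-- the scalar matrix -/
lemma prod_diag (X : B) : ((1 + Matrix.single 0 0 X) * (1 + Matrix.single 1 1 X) *
    (1 + Matrix.single 2 2 X) : Matrix (Fin 3) (Fin 3) B) = Matrix.scalar (Fin 3) (1 + X) := by
  have s1 : (Matrix.single 0 0 X * Matrix.single 1 1 X : Matrix (Fin 3) (Fin 3) B) = 0 :=
    Matrix.single_mul_single_of_ne _ _ _ _ (by decide) _
  have s2 : (Matrix.single 0 0 X * Matrix.single 2 2 X : Matrix (Fin 3) (Fin 3) B) = 0 :=
    Matrix.single_mul_single_of_ne _ _ _ _ (by decide) _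
  have s3 : (Matrix.single 1 1 X * Matrix.single 2 2 X : Matrix (Fin 3) (Fin 3) B) = 0 :=
    Matrix.single_mul_single_of_ne _ _ _ _ (by decide) _
  have e : ((1 + Matrix.single 0 0 X) * (1 + Matrix.single 1 1 X) *
    (1 + Matrix.single 2 2 X) : Matrix (Fin 3) (Fin 3) B) =
      1 + Matrix.single 0 0 X + Matrix.single 1 1 X + Matrix.single 2 2 X := by
    simp only [add_mul, mul_add, one_mul, mul_one, s1, s2, s3, zero_mul]
    abel
  rw [e]
  ext r s
  fin_cases r <;> fin_cases s <;> simp [Matrix.scalar_apply]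

end ring

section grp

variable {A : Type} [Ring A]

/-- the element `l` -/
def ll (e f : A) : E3 A :=
  (eE 0 1 (by decide) (e * f) * eE 1 0 (by decide) e * eE 0 1 (by decide) (-(e * f)) *
      eE 1 0 (by decide) (-e)) *
    (eE 1 2 (by decide) (e * f) * eE 2 1 (by decide) e * eE 1 2 (by decide) (-(e * f)) *
      eE 2 1 (by decide) (-e)) *
    (eE 2 0 (by decide) (e * f) * eE 0 2 (by decide) e * eE 2 0 (by decide) (-(e * f)) *
      eE 0 2 (by decide) (-e))

variable {B : Type} [Ring B]

lemma uq_ll (g : A →+* B) (e f : A) (h : Rl (g e) (g f)) :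
    (uq g (ll e f)).val = Matrix.scalar (Fin 3) (1 + g e) := by
  have hc : ∀ {i j : Fin 3} (hij : i ≠ j),
      (uq g (eE i j hij (e * f) * eE j i hij.symm e * eE i j hij (-(e * f)) *
        eE j i hij.symm (-e))).val = 1 + Matrix.single i i (g e) := by
    intro i j hij
    rw [map_mul, map_mul, map_mul, uq_eE, uq_eE, uq_eE, uq_eE, map_mul, map_neg, map_neg, map_mul]
    rw [comm_el hij (g e * g f) (g e) h.efqp, h.efe]
  rw [ll, map_mul, map_mul, Units.val_mul, Units.val_mul]
  rw [hc (i := 0) (j := 1) (by decide), hc (i := 1) (j := 2) (by decide),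
    hc (i := 2) (j := 0) (by decide), prod_diag]

/-- the image of `w₀` -/
lemma uq_w (g : A →+* B) (e f : A) (h : Rl (g e) (g f)) :
    uq g ((ll e f)⁻¹ * eE 0 1 (by decide) f * ll e f * (eE 0 1 (by decide) f)⁻¹) =
      el 0 1 (by decide) (g (f * e - e * f - e * f * e)) := by
  rw [map_mul, map_mul, map_mul, map_inv, map_inv, uq_eE, mul_inv_eq_iff_eq_mul, mul_assoc,
    inv_mul_eq_iff_eq_mul]
  apply Units.ext
  rw [Units.val_mul, Units.val_mul, Units.val_mul, uq_ll g e f h]
  change (1 + Matrix.single 0 1 (g f)) * Matrix.scalar (Fin 3) (1 + g e) =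
    Matrix.scalar (Fin 3) (1 + g e) * ((1 + Matrix.single 0 1 (g (f * e - e * f - e * f * e))) *
      (1 + Matrix.single 0 1 (g f)))
  have h0 : (Matrix.single 0 1 (g (f * e - e * f - e * f * e)) * Matrix.single 0 1 (g f) :
    Matrix (Fin 3) (Fin 3) B) = 0 := Matrix.single_mul_single_of_ne _ _ _ _ (by decide) _
  have e1 : (1 + Matrix.single 0 1 (g (f * e - e * f - e * f * e))) *
      (1 + Matrix.single 0 1 (g f)) =
      (1 + Matrix.single 0 1 (g (f * e - e * f - e * f * e) + g f) :
        Matrix (Fin 3) (Fin 3) B) := by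
    rw [Matrix.single_add]
    simp only [add_mul, mul_add, one_mul, mul_one, h0]
    abel
  rw [e1]
  have e2 : g f * (1 + g e) = (1 + g e) * (g (f * e - e * f - e * f * e) + g f) := by
    simp only [map_sub, map_mul]
    rw [h.efe]
    have b1 : g e * (g f * g e) = g e := by rw [← mul_assoc, h.efe]
    have b2 : g e * (g e * g f) = 0 := h.efqp
    simp only [add_mul, mul_add, mul_sub, one_mul, mul_one, b1, b2, h.ee]
    abel
  ext r s
  rw [Matrix.scalar_apply, Matrix.mul_diagonal, Matrix.diagonal_mul, Matrix.add_apply,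
    Matrix.add_apply, Matrix.one_apply, Matrix.single_apply, Matrix.single_apply]
  by_cases hrs : r = s
  · subst hrs
    have : ¬ ((0 : Fin 3) = r ∧ (1 : Fin 3) = r) := by
      rintro ⟨rfl, h⟩
      exact absurd h (by decide)
    rw [if_pos rfl, if_neg this, if_neg this, add_zero, one_mul, mul_one]
  · rw [if_neg hrs, zero_add, zero_add]
    by_cases h01 : (0 : Fin 3) = r ∧ (1 : Fin 3) = s
    · rw [if_pos h01, if_pos h01]
      exact e2
    · rw [if_neg h01, if_neg h01, zero_mul, mul_zero]

/-- a normal subgroup which contains all `el 0 2 b` contains everything -/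
lemma normal_top (N : Subgroup (E3 A)) [N.Normal] (h : ∀ b, eE 0 2 (by decide) b ∈ N) :
    N = ⊤ := by
  have hr : ∀ {i j k : Fin 3} (hij : i ≠ j) (hjk : j ≠ k) (hik : i ≠ k),
      (∀ b, eE i j hij b ∈ N) → ∀ b, eE i k hik b ∈ N := by
    intro i j k hij hjk hik hN b
    have h1 := eE_rel hij hjk hik b (1 : A)
    have e : eE i k hik b = (eE i j hij b)⁻¹ * ((eE j k hjk (1 : A))⁻¹ *
        eE i j hij b * ((eE j k hjk (1 : A))⁻¹)⁻¹) := by
      rw [inv_inv, mul_assoc (eE j k hjk (1 : A))⁻¹, h1, mul_one]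
      group
    rw [e]
    exact N.mul_mem (N.inv_mem (hN b)) (‹N.Normal›.conj_mem _ (hN b) _)
  have hl : ∀ {i j k : Fin 3} (hij : i ≠ j) (hjk : j ≠ k) (hik : i ≠ k),
      (∀ b, eE j k hjk b ∈ N) → ∀ b, eE i k hik b ∈ N := by
    intro i j k hij hjk hik hN b
    have h1 := eE_rel hij hjk hik (1 : A) b
    have e : eE i k hik b = ((eE i j hij (1 : A))⁻¹ * (eE j k hjk b)⁻¹ *
        ((eE i j hij (1 : A))⁻¹)⁻¹) * eE j k hjk b := by
      rw [inv_inv, mul_assoc _ (eE i j hij (1 : A)), h1, one_mul]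
      group
    rw [e]
    exact N.mul_mem (‹N.Normal›.conj_mem _ (N.inv_mem (hN b)) _) (hN b)
  have h02 := h
  have h01 : ∀ b, eE 0 1 (by decide) b ∈ N :=
    hr (i := 0) (j := 2) (k := 1) (by decide) (by decide) (by decide) h02
  have h12 : ∀ b, eE 1 2 (by decide) b ∈ N :=
    hl (i := 1) (j := 0) (k := 2) (by decide) (by decide) (by decide) h02
  have h10 : ∀ b, eE 1 0 (by decide) b ∈ N :=
    hr (i := 1) (j := 2) (k := 0) (by decide) (by decide) (by decide) h12
  have h21 : ∀ b, eE 2 1 (by decide) b ∈ N :=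
    hl (i := 2) (j := 0) (k := 1) (by decide) (by decide) (by decide) h01
  have h20 : ∀ b, eE 2 0 (by decide) b ∈ N :=
    hr (i := 2) (j := 1) (k := 0) (by decide) (by decide) (by decide) h21
  have hall : ∀ (i j : Fin 3) (hij : i ≠ j) (b : A), eE i j hij b ∈ N := by
    intro i j hij b
    fin_cases i <;> fin_cases j
    · exact absurd rfl hij
    · exact h01 b
    · exact h02 b
    · exact h10 b
    · exact absurd rfl hij
    · exact h12 b
    · exact h20 b
    · exact h21 b
    · exact absurd rfl hij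
  have hle : E3 A ≤ N.map (E3 A).subtype := by
    conv_lhs => rw [E3]
    rw [Subgroup.closure_le]
    rintro _ ⟨i, j, hij, a, rfl⟩
    exact ⟨eE i j hij a, hall i j hij a, rfl⟩
  rw [eq_top_iff]
  intro x _
  obtain ⟨y, hy, hyx⟩ := hle x.2
  have : y = x := Subtype.ext hyx
  rwa [← this]

end grp

section tower

variable (R : ℕ → Type) [∀ r, Ring (R r)] (ev : ∀ r, AA →+* R r) (δ : ∀ r, R r →+* R (r + 1))

/-- the homomorphisms to the iterated matrix rings -/
def gg : ∀ m : ℕ, ℕ → (AA →+* R m)
  | 0, _ => ev 0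
  | m + 1, 0 => ev (m + 1)
  | m + 1, j + 1 => (δ m).comp (gg m j)

lemma gg_zero (m : ℕ) : gg R ev δ m 0 = ev m := by
  cases m <;> rfl

variable {R ev δ}

lemma gg_shift {Φ : AA →+* AA} (h1 : ∀ r a, ev (r + 1) (Φ a) = δ r (ev r a)) :
    ∀ (m j : ℕ) (a : AA), j < m → gg R ev δ m j (Φ a) = gg R ev δ m (j + 1) a := by
  intro m
  induction m with
  | zero => intro j a hj; omega
  | succ m ih =>
    intro j a hj
    cases j with
    | zero =>
      change ev (m + 1) (Φ a) = δ m (gg R ev δ m 0 a)
      rw [gg_zero, h1]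
    | succ j =>
      change δ m (gg R ev δ m j (Φ a)) = δ m (gg R ev δ m (j + 1) a)
      rw [ih j a (by omega)]

lemma gg_rl {Φ : AA →+* AA} {e f : AA} (h1 : ∀ r a, ev (r + 1) (Φ a) = δ r (ev r a))
    (h2 : ∀ r, ev (r + 1) (e * e) = 0 ∧ ev (r + 1) (f * f) = 0 ∧ ev (r + 1) (e * f + f * e) = 1)
    (h3 : ∀ r y, ev (r + 1) e * δ r y = δ r y * ev (r + 1) e) :
    ∀ (m j : ℕ), j < m → Rl (gg R ev δ m j e) (gg R ev δ m j f) ∧
      ∀ a, gg R ev δ m j e * gg R ev δ m j (Φ a) = gg R ev δ m j (Φ a) * gg R ev δ m j e := by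
  intro m
  induction m with
  | zero => intro j hj; omega
  | succ m ih =>
    intro j hj
    cases j with
    | zero =>
      obtain ⟨a1, a2, a3⟩ := h2 m
      refine ⟨⟨?_, ?_, ?_⟩, fun a => ?_⟩
      · change ev (m + 1) e * ev (m + 1) e = 0
        rw [← map_mul, a1]
      · change ev (m + 1) f * ev (m + 1) f = 0
        rw [← map_mul, a2]
      · change ev (m + 1) e * ev (m + 1) f + ev (m + 1) f * ev (m + 1) e = 1
        rw [← map_mul, ← map_mul, ← map_add, a3]
      · change ev (m + 1) e * ev (m + 1) (Φ a) = ev (m + 1) (Φ a) * ev (m + 1) e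
        rw [h1, h3]
    | succ j =>
      obtain ⟨⟨a1, a2, a3⟩, a4⟩ := ih j (by omega)
      refine ⟨⟨?_, ?_, ?_⟩, fun a => ?_⟩
      · change δ m _ * δ m _ = 0
        rw [← map_mul, a1, map_zero]
      · change δ m _ * δ m _ = 0
        rw [← map_mul, a2, map_zero]
      · change δ m _ * δ m _ + δ m _ * δ m _ = 1
        rw [← map_mul (δ m), ← map_mul (δ m), ← map_add, a3, map_one]
      · change δ m _ * δ m _ = δ m _ * δ m _
        rw [← map_mul, a4, map_mul]

end tower

theorem hasT : HasT (E3 AA) := by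
  have : Fact (Nat.Prime 257) := ⟨by norm_num⟩
  refine t_TT (ZMod 257) (by rw [ZMod.card]; norm_num) AA (FreeAlgebra.ι (ZMod 257)) ?_
  exact FreeAlgebra.adjoin_range_ι _ _

theorem t_dta (h : S_LEV) : S_DTA := by
  obtain ⟨Φ, e, f, R, _, _, _, ev, δ, h1, h2, h3⟩ := h
  refine ⟨E3 AA, inferInstance, um3 Φ, ll e f, eE 0 1 (by decide) f,
    fun m => (Matrix (Fin 3) (Fin 3) (R m))ˣ, fun m => inferInstance, fun m => ?_,
    fun m j => uq (gg R ev δ m j), hasT, ?_⟩
  · have : Finite (Matrix (Fin 3) (Fin 3) (R m)) := inferInstanceAs (Finite (Fin 3 → Fin 3 → R m))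
    infer_instance
  constructor
  · intro m j x hj
    rw [uq_um3]
    have : (gg R ev δ m j).comp Φ = gg R ev δ m (j + 1) :=
      RingHom.ext fun a => gg_shift h1 m j a hj
    rw [this]
  · intro m j x hj
    obtain ⟨hrl, hcm⟩ := gg_rl h1 h2 h3 m j hj
    apply Units.ext
    rw [Units.val_mul, Units.val_mul, uq_ll _ e f hrl]
    ext r s
    rw [Matrix.scalar_apply, Matrix.mul_diagonal, Matrix.diagonal_mul]
    have e1 : (uq (gg R ev δ m j) (um3 Φ x)).val r s = gg R ev δ m j (Φ (x.1.val r s)) := rfl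
    rw [e1, add_mul, mul_add, one_mul, mul_one, hcm]
  · -- generation
    set w := (ll e f)⁻¹ * eE 0 1 (by decide) f * ll e f * (eE 0 1 (by decide) f)⁻¹ with hw
    let N : Subgroup (E3 AA) :=
      { carrier := {x | ∃ x' ∈ Subgroup.normalClosure {w}, ∀ m j, j < m →
          uq (gg R ev δ m j) x = uq (gg R ev δ m j) x'}
        mul_mem' := by
          rintro a b ⟨a', ha, ha'⟩ ⟨b', hb, hb'⟩
          exact ⟨a' * b', Subgroup.mul_mem _ ha hb, fun m j hj => by
            rw [map_mul, map_mul, ha' m j hj, hb' m j hj]⟩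
        one_mem' := ⟨1, Subgroup.one_mem _, fun m j hj => rfl⟩
        inv_mem' := by
          rintro a ⟨a', ha, ha'⟩
          exact ⟨a'⁻¹, Subgroup.inv_mem _ ha, fun m j hj => by
            rw [map_inv, map_inv, ha' m j hj]⟩ }
    have hN : N.Normal := ⟨by
      rintro a ⟨a', ha, ha'⟩ c
      exact ⟨c * a' * c⁻¹, Subgroup.normalClosure_normal.conj_mem _ ha c, fun m j hj => by
        rw [map_mul, map_mul, map_mul, map_mul, ha' m j hj]⟩⟩
    have htop : N = ⊤ := by
      apply normal_top
      intro b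
      have hwm : w ∈ Subgroup.normalClosure {w} := Subgroup.subset_normalClosure rfl
      set z := f * e - e * f - e * f * e with hz
      set y := eE 1 2 (by decide) (z * b) with hy
      refine ⟨w⁻¹ * (y⁻¹ * w * (y⁻¹)⁻¹), Subgroup.mul_mem _ (Subgroup.inv_mem _ hwm)
        (Subgroup.normalClosure_normal.conj_mem _ hwm _), fun m j hj => ?_⟩
      obtain ⟨hrl, hcm⟩ := gg_rl h1 h2 h3 m j hj
      set g := gg R ev δ m j with hg
      have hW : uq g w = el 0 1 (by decide) (g z) := uq_w g e f hrl
      have hY : uq g y = el 1 2 (by decide) (g z * g b) := by rw [hy, uq_eE, map_mul]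
      rw [inv_inv, map_mul, map_mul, map_mul, map_inv, map_inv, hW, hY, uq_eE]
      have hrel := el_rel (i := 0) (j := 1) (k := 2) (by decide) (by decide) (by decide) (g z)
        (g z * g b)
      have hzz : g z * g z = 1 := by
        rw [hz]
        simp only [map_sub, map_mul]
        exact hrl.zz
      rw [← mul_assoc (g z), hzz, one_mul] at hrel
      rw [mul_assoc _ (el 0 1 _ (g z)), hrel]
      group
    intro x
    have hx : x ∈ N := by rw [htop]; trivial
    exact hx
  · -- nontriviality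
    refine ⟨eE 0 1 (by decide) 1, fun m j hj h4 => ?_⟩
    rw [uq_eE, map_one] at h4
    have h5 := congrArg (fun u : (Matrix (Fin 3) (Fin 3) (R m))ˣ => u.val 0 1) h4
    change (1 + Matrix.single 0 1 (1 : R m) : Matrix (Fin 3) (Fin 3) (R m)) 0 1 =
      (1 : Matrix (Fin 3) (Fin 3) (R m)) 0 1 at h5
    rw [Matrix.add_apply, Matrix.single_apply_same] at h5
    have h6 : (1 : Matrix (Fin 3) (Fin 3) (R m)) 0 1 = 0 := Matrix.one_apply_ne (by decide)
    rw [h6, zero_add] at h5
    exact one_ne_zero h5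

end Pool.Agent.N690.MS
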